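import Pool.Agent.VLF.Stmts
import Pool.Agent.Helper24_ZOL.GFLIP

/-!
# VLF, row TYP: the standard representative is of finite type modulo powers of `p`
-/

namespace Pool.Agent.VLF.H7

open Pool.Agent.ZOL Pool.Agent.VLF Finset

theorem kn_flip_single {w : Word} (hw : IsGauss w) (hp : Planar (shadow w)) (S : Finset ℕ) :
    ∃ K : Knot, kn (flip S w) = Finsupp.single K 1 := by
  have h : IsGauss (flip S w) ∧ Planar (shadow (flip S w)) :=
    ⟨Pool.Agent.ZOL.H24.gflip w S hw, by rw [shadow_flip]; exact hp⟩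
  refine ⟨Quot.mk _ (⟨flip S w, h⟩ : Diagram), ?_⟩
  unfold kn
  rw [dif_pos h]

/-- TYP -/
theorem typ (hSTD : StdStmt) (hCMP : CmpStmt) (hLFT : LftStmt) (hCUB : CubStmt) : TypStmt := by
  intro p k a d hp hk v hv V hV x hx
  have hq : 0 < p ^ k := pow_pos hp.pos k
  have : NeZero (p ^ k) := ⟨hq.ne'⟩
  unfold F at hx
  induction hx using AddSubgroup.closure_induction with
  | zero => rw [map_zero]; exact dvd_zero _
  | add y z _ _ hy hz => rw [map_add]; exact dvd_add hy hz
  | neg y _ hy => rw [map_neg]; exact (dvd_neg).2 hy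
  | mem y hy =>
    obtain ⟨w, C, hw, hpl, -, hC, rfl⟩ := hy
    obtain ⟨h, hdeg, hh⟩ := hLFT (p ^ k) d (fun S => v (kn (flip S w))) hq
      (hCUB (p ^ k) d v hv w hw hpl)
    have key := hCMP d (Dg p k a) ((p : ℤ) ^ (k + a)) h
      (fun y : ℕ => ((y % p ^ k : ℕ) : ℤ)) hdeg
      (fun j hj => hSTD p k a j hp hk hj 0) C (by rw [hC]; exact Nat.lt_succ_self _)
    have e : V (alt C w) =
        ∑ B ∈ C.powerset, (-1 : ℤ) ^ B.card * ((h B % p ^ k : ℕ) : ℤ) := by
      unfold alt
      rw [map_sum]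
      refine Finset.sum_congr rfl fun S _ => ?_
      rw [map_zsmul, smul_eq_mul]
      congr 1
      obtain ⟨K, hK⟩ := kn_flip_single hw hpl S
      have h1 : (h S : ZMod (p ^ k)) = v (Finsupp.single K 1) := by
        rw [← hK]; exact hh S
      rw [hK, hV K, ← h1, ZMod.val_natCast]
    rw [e]
    exact key

end Pool.Agent.VLF.H7
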